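import Mathlib
import Pool.Agent.H713R3.LDim.Count
import Pool.Agent.H643R2.ChainDec

/-!
# The largest local dimension of a poset of width `w` is `w`

The upper bound is Dilworth's theorem.  The lower bound is new: for every `w` there is a finite
poset of width `w` which has no local realizer using each element at most `w - 1` times.
-/

namespace Pool.Agent.Results.MP_33e188_co.MaxLocalDimension

/-- A partial linear extension of a poset `P`: a (strict) linear order `lt` on a subset `carrier`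
of `P` which extends the order that `P` induces on `carrier`. -/
structure PartialLinearExtension (P : Type*) [PartialOrder P] where
  carrier : Set P
  lt : P → P → Prop
  mem_of_lt : ∀ x y, lt x y → x ∈ carrier ∧ y ∈ carrier
  irrefl : ∀ x, ¬ lt x x
  trans : ∀ x y z, lt x y → lt y z → lt x z
  total : ∀ x ∈ carrier, ∀ y ∈ carrier, x ≠ y → lt x y ∨ lt y x
  lt_of_lt : ∀ x ∈ carrier, ∀ y ∈ carrier, x < y → lt x y

/-- A finite family of partial linear extensions of `P` is a local realizer if every `x < y` holds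
in some member, and for every ordered pair `(x, y)` of incomparable elements some member has
`y < x`. -/
def IsLocalRealizer {P : Type*} [PartialOrder P] {n : ℕ}
    (L : Fin n → PartialLinearExtension P) : Prop :=
  (∀ x y : P, x < y → ∃ i, (L i).lt x y) ∧
  (∀ x y : P, ¬ x ≤ y → ¬ y ≤ x → ∃ i, (L i).lt y x)

/-- The local dimension: the least `t` such that some local realizer uses every element in at
most `t` of its members. -/
noncomputable def ldim (P : Type*) [PartialOrder P] : ℕ :=
  sInf {t : ℕ | ∃ (n : ℕ) (L : Fin n → PartialLinearExtension P),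
    IsLocalRealizer L ∧ ∀ x : P, Nat.card {i : Fin n // x ∈ (L i).carrier} ≤ t}

/-- The width: the largest size of a (finite) antichain. -/
noncomputable def width (P : Type*) [PartialOrder P] : ℕ :=
  sSup {k : ℕ | ∃ A : Finset P, IsAntichain (· ≤ ·) (A : Set P) ∧ A.card = k}

theorem card_le_width {P : Type*} [PartialOrder P] [Finite P] (A : Finset P)
    (hA : IsAntichain (· ≤ ·) (A : Set P)) : A.card ≤ width P := by
  have := Fintype.ofFinite P
  apply le_csSup
  · refine ⟨Fintype.card P, ?_⟩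
    rintro k ⟨B, -, rfl⟩
    exact Finset.card_le_univ B
  · exact ⟨A, hA, rfl⟩

/-! ### The upper bound -/

/-- The part of the chain `f = i` above `x`. -/
def above {P : Type*} [PartialOrder P] (f : P → ℕ) (i : ℕ) (x : P) : Set P :=
  {c | f c = i ∧ x ≤ c}

theorem above_anti {P : Type*} [PartialOrder P] (f : P → ℕ) (i : ℕ) {x y : P} (h : x ≤ y) :
    above f i y ⊆ above f i x := fun _ hc => ⟨hc.1, h.trans hc.2⟩

/-- Push the chain `f = i` down. -/
def pushed {P : Type*} [PartialOrder P] (f : P → ℕ) (i : ℕ) (x y : P) : Prop :=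
  above f i y ⊂ above f i x ∨ (above f i x = above f i y ∧ x ≤ y)

theorem pushed_isPartialOrder {P : Type*} [PartialOrder P] (f : P → ℕ) (i : ℕ) :
    IsPartialOrder P (pushed f i) where
  refl := fun a => Or.inr ⟨rfl, le_rfl⟩
  trans := by
    rintro a b c (h1 | ⟨h1, h1'⟩) (h2 | ⟨h2, h2'⟩)
    · exact Or.inl (h2.trans h1)
    · left; rw [← h2]; exact h1
    · left; rw [h1]; exact h2
    · exact Or.inr ⟨h1.trans h2, h1'.trans h2'⟩
  antisymm := by
    rintro a b (h1 | ⟨h1, h1'⟩) (h2 | ⟨h2, h2'⟩)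
    · exact absurd (h1.trans h2) (ssubset_irrefl _)
    · rw [h2] at h1; exact absurd h1 (ssubset_irrefl _)
    · rw [h1] at h2; exact absurd h2 (ssubset_irrefl _)
    · exact le_antisymm h1' h2'

theorem exists_linear {P : Type*} [PartialOrder P] (f : P → ℕ)
    (hf : ∀ a b : P, f a = f b → a ≤ b ∨ b ≤ a) (i : ℕ) :
    ∃ L : PartialLinearExtension P, L.carrier = Set.univ ∧
      ∀ x y : P, ¬ x ≤ y → ¬ y ≤ x → f y = i → L.lt y x := by
  have := pushed_isPartialOrder f i
  obtain ⟨s, hs, hrs⟩ := extend_partialOrder (pushed f i)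
  refine ⟨⟨Set.univ, fun x y => s x y ∧ x ≠ y, fun _ _ _ => ⟨trivial, trivial⟩,
    fun x h => h.2 rfl, ?_, ?_, ?_⟩, rfl, ?_⟩
  · rintro x y z ⟨h1, h1'⟩ ⟨h2, h2'⟩
    refine ⟨hs.trans _ _ _ h1 h2, ?_⟩
    rintro rfl
    exact h1' (hs.antisymm _ _ h1 h2)
  · intro x _ y _ hxy
    rcases hs.total x y with h | h
    · exact Or.inl ⟨h, hxy⟩
    · exact Or.inr ⟨h, hxy.symm⟩
  · intro x _ y _ hxy
    refine ⟨hrs x y ?_, hxy.ne⟩
    rcases (above_anti f i hxy.le).eq_or_ssubset with h | h
    · exact Or.inr ⟨h.symm, hxy.le⟩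
    · exact Or.inl h
  · intro x y hxy hyx hy
    refine ⟨hrs y x (Or.inl ?_), ?_⟩
    · rw [Set.ssubset_iff_of_subset]
      · exact ⟨y, ⟨hy, le_rfl⟩, fun h => hxy h.2⟩
      · rintro c ⟨hc1, hc2⟩
        refine ⟨hc1, ?_⟩
        rcases hf c y (hc1.trans hy.symm) with h | h
        · exact absurd (hc2.trans h) hxy
        · exact h
    · rintro rfl
      exact hxy le_rfl

theorem exists_realizer {P : Type*} [PartialOrder P] [Finite P] (w : ℕ) (hw : 1 ≤ w)
    (hP : width P ≤ w) :
    ∃ (n : ℕ) (L : Fin n → PartialLinearExtension P),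
      IsLocalRealizer L ∧ ∀ x : P, Nat.card {i : Fin n // x ∈ (L i).carrier} ≤ w := by
  classical
  have := Fintype.ofFinite P
  obtain ⟨f, hf1, hf2⟩ := Pool.Agent.H643R2.ChainDec.dilworth_finset _ w
    (Finset.univ : Finset P) rfl (by
      intro S _ hS
      refine (card_le_width S ?_).trans hP
      intro a ha b hb hab h
      exact hab (hS a ha b hb h))
  have hf3 : ∀ a b : P, f a = f b → a ≤ b ∨ b ≤ a :=
    fun a b h => hf2 a (Finset.mem_univ _) b (Finset.mem_univ _) h
  choose L hL1 hL2 using exists_linear f hf3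
  refine ⟨w, fun i => L i.val, ⟨?_, ?_⟩, ?_⟩
  · intro x y hxy
    refine ⟨⟨0, hw⟩, (L 0).lt_of_lt x ?_ y ?_ hxy⟩ <;> rw [hL1] <;> trivial
  · intro x y hxy hyx
    exact ⟨⟨f y, hf1 y (Finset.mem_univ _)⟩, hL2 _ x y hxy hyx rfl⟩
  · intro x
    calc Nat.card {i : Fin w // x ∈ (L i.val).carrier} ≤ Nat.card (Fin w) :=
          Nat.card_le_card_of_injective _ Subtype.val_injective
      _ = w := by simp

theorem ldim_le_width {P : Type*} [PartialOrder P] [Finite P] (w : ℕ) (hw : 1 ≤ w)
    (hP : width P ≤ w) : ldim P ≤ w :=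
  Nat.sInf_le (exists_realizer w hw hP)

theorem ldim_spec {P : Type*} [PartialOrder P] [Finite P] :
    ∃ (n : ℕ) (L : Fin n → PartialLinearExtension P),
      IsLocalRealizer L ∧ ∀ x : P, Nat.card {i : Fin n // x ∈ (L i).carrier} ≤ ldim P := by
  have hne : {t : ℕ | ∃ (n : ℕ) (L : Fin n → PartialLinearExtension P),
      IsLocalRealizer L ∧ ∀ x : P, Nat.card {i : Fin n // x ∈ (L i).carrier} ≤ t}.Nonempty :=
    ⟨_, exists_realizer (max 1 (width P)) (le_max_left _ _) (le_max_right _ _)⟩
  exact Nat.sInf_mem hne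

/-! ### The lower bound -/

open Pool.Agent.H713R3.LDim

/-- The finite poset. -/
abbrev FP (w H N : ℕ) : Type := {x : Pt w H // ∀ q, x.tup q < N}

instance (w H N : ℕ) : Finite (FP w H N) := by
  let g : FP w H N → Fin H × Fin w × (Fin (w * w) → Fin N) :=
    fun x => (x.1.lay, x.1.ch, fun q => ⟨x.1.tup q, x.2 q⟩)
  apply Finite.of_injective g
  rintro ⟨x, hx⟩ ⟨y, hy⟩ hxy
  simp only [g, Prod.mk.injEq] at hxy
  apply Subtype.ext
  apply Pt.ext hxy.1 hxy.2.1
  funext q
  have := congrFun hxy.2.2 q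
  simpa using this

theorem exists_slots {n k : ℕ} (p : Fin n → Prop) (h : Nat.card {i : Fin n // p i} ≤ k) :
    ∃ g : Fin k → Option (Fin n), ∀ i, p i → ∃ α, g α = some i := by
  classical
  have h' : Fintype.card {i : Fin n // p i} ≤ Fintype.card (Fin k) := by
    rw [Fintype.card_fin, ← Nat.card_eq_fintype_card]; exact h
  obtain ⟨e⟩ := Function.Embedding.nonempty_of_card_le h'
  refine ⟨fun α => if h : ∃ i : {i : Fin n // p i}, e i = α then some h.choose.1 else none, ?_⟩
  intro i hi
  refine ⟨e ⟨i, hi⟩, ?_⟩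
  have hex : ∃ j : {i : Fin n // p i}, e j = e ⟨i, hi⟩ := ⟨⟨i, hi⟩, rfl⟩
  have h1 : hex.choose = ⟨i, hi⟩ := e.injective hex.choose_spec
  show dite _ _ _ = _
  rw [dif_pos hex, h1]

theorem not_realizer (w : ℕ) (hw : 2 ≤ w) : ∃ N : ℕ, ∀ (n : ℕ)
    (L : Fin n → PartialLinearExtension (FP w (w * (w - 1) + 2) (N + 1))),
    IsLocalRealizer L → ∃ x, w ≤ Nat.card {i : Fin n // x ∈ (L i).carrier} := by
  classical
  obtain ⟨N, hN⟩ := no_sys w hw
  refine ⟨N, fun n L hL => ?_⟩
  by_contra hcon
  push Not at hcon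
  have hslots : ∀ x : Pt w (w * (w - 1) + 2), ∃ g : Fin (w - 1) → Option (Fin n),
      ∀ i, (∃ hx : ∀ q, x.tup q < N + 1,
        (⟨x, hx⟩ : FP w (w * (w - 1) + 2) (N + 1)) ∈ (L i).carrier) → ∃ α, g α = some i := by
    intro x
    by_cases hx : ∀ q, x.tup q < N + 1
    · have h1 := hcon ⟨x, hx⟩
      obtain ⟨g, hg⟩ := exists_slots
        (fun i => (⟨x, hx⟩ : FP w (w * (w - 1) + 2) (N + 1)) ∈ (L i).carrier)
        (k := w - 1) (by omega)
      exact ⟨g, fun i hi => hg i hi.2⟩
    · exact ⟨fun _ => none, fun i hi => absurd hi.1 hx⟩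
  choose G hG using hslots
  refine hN (Fin n)
    { R := fun i x y => ∃ (hx : ∀ q, x.tup q < N + 1) (hy : ∀ q, y.tup q < N + 1),
        (L i).lt ⟨x, hx⟩ ⟨y, hy⟩
      mem := fun i x => ∃ hx : ∀ q, x.tup q < N + 1,
        (⟨x, hx⟩ : FP w (w * (w - 1) + 2) (N + 1)) ∈ (L i).carrier
      hmem := ?_
      hirr := ?_
      htr := ?_
      hext := ?_
      G := G
      hG := fun x i h => hG x i h
      hinc := ?_ }
  · rintro i x y ⟨hx, hy, h⟩
    have := (L i).mem_of_lt _ _ h
    exact ⟨⟨hx, this.1⟩, ⟨hy, this.2⟩⟩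
  · rintro i x ⟨hx, hy, h⟩
    exact (L i).irrefl _ h
  · rintro i x y z ⟨hx, hy, h⟩ ⟨hy', hz, h'⟩
    exact ⟨hx, hz, (L i).trans _ _ _ h h'⟩
  · rintro i x y ⟨hx, h⟩ ⟨hy, h'⟩ hxy
    exact ⟨hx, hy, (L i).lt_of_lt _ h _ h' hxy⟩
  · intro x y hx hy hxy hyx
    have hx' : ∀ q, x.tup q < N + 1 := fun q => (hx q).trans (Nat.lt_succ_self _)
    have hy' : ∀ q, y.tup q < N + 1 := fun q => (hy q).trans (Nat.lt_succ_self _)
    obtain ⟨i, hi⟩ := hL.2 ⟨x, hx'⟩ ⟨y, hy'⟩ hxy hyx
    exact ⟨i, hy', hx', hi⟩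

theorem width_FP (w H N : ℕ) (hH : 0 < H) : width (FP w H (N + 1)) = w := by
  classical
  apply le_antisymm
  · apply csSup_le
    · exact ⟨0, ∅, by simp, rfl⟩
    · rintro k ⟨A, hA, rfl⟩
      have hinj : Set.InjOn (fun x : FP w H (N + 1) => x.1.ch) (A : Set (FP w H (N + 1))) := by
        intro x hx y hy hxy
        by_contra hne
        rcases Pt.comparable (x := x.1) (y := y.1) hxy with h | h
        · exact hA hx hy hne h
        · exact hA hy hx (Ne.symm hne) h
      calc A.card = (A.image fun x : FP w H (N + 1) => x.1.ch).card :=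
            (Finset.card_image_of_injOn hinj).symm
        _ ≤ Fintype.card (Fin w) := Finset.card_le_univ _
        _ = w := Fintype.card_fin w
  · let g : Fin w → FP w H (N + 1) := fun i => ⟨⟨⟨0, hH⟩, i, fun _ => 0⟩, fun _ => Nat.succ_pos _⟩
    have hg : Function.Injective g := by
      intro i j hij
      have := congrArg (fun x : FP w H (N + 1) => x.1.ch) hij
      exact this
    have h1 := card_le_width (P := FP w H (N + 1)) (Finset.univ.image g) (by
      intro x hx y hy hxy h
      simp only [Finset.coe_image, Finset.coe_univ, Set.image_univ, Set.mem_range] at hx hy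
      obtain ⟨i, rfl⟩ := hx
      obtain ⟨j, rfl⟩ := hy
      have hij : i ≠ j := fun h => hxy (by rw [h])
      exact Pt.not_le_of_lay (x := (g i).1) (y := (g j).1) hij rfl h)
    rw [Finset.card_image_of_injective _ hg, Finset.card_univ, Fintype.card_fin] at h1
    exact h1

theorem one_case : width (Fin 2) = 1 ∧ ldim (Fin 2) = 1 := by
  have hw : width (Fin 2) = 1 := by
    apply le_antisymm
    · apply csSup_le
      · exact ⟨0, ∅, by simp, rfl⟩
      · rintro k ⟨A, hA, rfl⟩
        rw [Finset.card_le_one]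
        intro a ha b hb
        by_contra hne
        rcases le_total a b with h | h
        · exact hA ha hb hne h
        · exact hA hb ha (Ne.symm hne) h
    · have := card_le_width (P := Fin 2) {0} (by simp)
      simpa using this
  refine ⟨hw, le_antisymm (ldim_le_width 1 le_rfl hw.le) ?_⟩
  obtain ⟨n, L, hL, hc⟩ := ldim_spec (P := Fin 2)
  obtain ⟨i, hi⟩ := hL.1 0 1 (by decide)
  have h1 := hc 0
  have h2 : 0 < Nat.card {i : Fin n // (0 : Fin 2) ∈ (L i).carrier} := by
    have : Nonempty {i : Fin n // (0 : Fin 2) ∈ (L i).carrier} :=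
      ⟨⟨i, ((L i).mem_of_lt _ _ hi).1⟩⟩
    exact Nat.card_pos
  omega

/-- **Main theorem.** For every positive integer `w`, the maximum `f(w)` of the local dimension
over all finite posets of width `w` exists and equals `w`. -/
theorem result (w : ℕ) (hw : 1 ≤ w) :
    IsGreatest {d : ℕ | ∃ (P : Type) (_ : PartialOrder P) (_ : Finite P),
      width P = w ∧ ldim P = d} w := by
  constructor
  · rcases Nat.lt_or_ge 1 w with h2 | h2
    · obtain ⟨N, hN⟩ := not_realizer w h2
      refine ⟨FP w (w * (w - 1) + 2) (N + 1), inferInstance, inferInstance,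
        width_FP w _ N (by omega), ?_⟩
      apply le_antisymm
      · exact ldim_le_width w hw (width_FP w _ N (by omega)).le
      · obtain ⟨n, L, hL, hc⟩ := ldim_spec (P := FP w (w * (w - 1) + 2) (N + 1))
        obtain ⟨x, hx⟩ := hN n L hL
        exact hx.trans (hc x)
    · have : w = 1 := by omega
      subst this
      exact ⟨Fin 2, inferInstance, inferInstance, one_case.1, one_case.2⟩
  · rintro d ⟨P, hP, hfin, hwd, rfl⟩
    exact ldim_le_width w hw hwd.le

end Pool.Agent.Results.MP_33e188_co.MaxLocalDimension
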